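import Pool.Agent.NH90.CN.All2

set_option autoImplicit false

open Pool.Agent.Helper770.Crossing Pool.Agent.NH90.CN

namespace Pool.Agent.Results.MP_c258d4_co.LimitExists

/-- The limit of `cr(Q_n) / 4^n` exists; `cr(Q_{n+1}) ≤ 4 cr(Q_n) + n² 2^n` for `n ≥ 1`, and the
limit `L` is at most `cr(Q_n) / 4^n + (n² + 2n + 3) / 2^{n+1}` for every `n ≥ 1`. More generally
`cr(G □ K₂) ≤ 4 cr(G) + Σ_v deg(v)²` for every finite simple graph `G` without isolated
vertices. -/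
theorem result :
    (∃ L : ℝ, Filter.Tendsto
        (fun n : ℕ => (crossingNumber (hypercube n) : ℝ) / 4 ^ n) Filter.atTop (nhds L) ∧
      ∀ n : ℕ, 1 ≤ n →
        L ≤ (crossingNumber (hypercube n) : ℝ) / 4 ^ n + (n ^ 2 + 2 * n + 3) / 2 ^ (n + 1)) ∧
    (∀ n : ℕ, 1 ≤ n →
      crossingNumber (hypercube (n + 1)) ≤ 4 * crossingNumber (hypercube n) + n ^ 2 * 2 ^ n) ∧
    (∀ (V : Type) [Fintype V] (G : SimpleGraph V), (∀ v, ∃ w, G.Adj v w) →
      crossingNumber (prism G) ≤ 4 * crossingNumber G + ∑ v : V, dgr G v ^ 2) :=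
  ⟨p_LIM, p_CUB, p_DBL⟩

end Pool.Agent.Results.MP_c258d4_co.LimitExists
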